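import Mathlib
import Pool.Agent.H119R2.Lower
import Pool.Agent.H119R2.Lower2
import Pool.Agent.H119R2.Upper

set_option autoImplicit false

open Filter

namespace Pool.Agent.Results.MP_3aefc9_co.TowerGrowth

/-- Every red/blue colouring `χ` (`true` = red, `false` = blue) of the `k`-subsets of an
`n`-element set has an `s`-element set all of whose `k`-subsets are red or a `t`-element set all
of whose `k`-subsets are blue. -/
def Arrows (n k s t : ℕ) : Prop :=
  ∀ χ : Finset (Fin n) → Bool,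
    (∃ S : Finset (Fin n), S.card = s ∧ ∀ e ⊆ S, e.card = k → χ e = true) ∨
    (∃ T : Finset (Fin n), T.card = t ∧ ∀ e ⊆ T, e.card = k → χ e = false)

/-- The Ramsey number `r_k(s,t)` of `k`-uniform hypergraphs. -/
noncomputable def ramsey (k s t : ℕ) : ℕ := sInf {n : ℕ | Arrows n k s t}

/-- The tower function: `twr 1 = 2` and `twr (i+1) = 2 ^ twr i` (and `twr 0 = 1`). -/
def twr : ℕ → ℕ
  | 0 => 1
  | (i + 1) => 2 ^ twr i

lemma twr_mono_succ (i : ℕ) : twr i < twr (i + 1) := Nat.lt_two_pow_self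

lemma twr_strictMono : StrictMono twr := strictMono_nat_of_lt_succ twr_mono_succ

lemma u_ge (j : ℕ) : 4 * twr (j + 1) ≤ H119R2.Lower.u j := by
  induction j with
  | zero => norm_num [twr, H119R2.Lower.u]
  | succ j ih =>
    have h1 : 2 * twr (j + 1) ≤ H119R2.Lower.u j / 2 := by omega
    have h2 : 2 ≤ twr (j + 1) := by
      have : twr 1 ≤ twr (j + 1) := twr_strictMono.monotone (by omega)
      simpa [twr] using this
    calc 4 * twr (j + 1 + 1) = 2 ^ 2 * 2 ^ twr (j + 1) := by simp [twr]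
      _ = 2 ^ (2 + twr (j + 1)) := by rw [pow_add]
      _ ≤ 2 ^ (2 * twr (j + 1)) := Nat.pow_le_pow_right (by norm_num) (by omega)
      _ ≤ 2 ^ (H119R2.Lower.u j / 2) := Nat.pow_le_pow_right (by norm_num) h1
      _ = H119R2.Lower.u (j + 1) := rfl

lemma ER_ge (k : ℕ) : 2 ≤ H119R2.Upper.ER k := by
  cases k with
  | zero => simp [H119R2.Upper.ER]
  | succ k =>
    unfold H119R2.Upper.ER
    calc 2 = 2 ^ 1 := by norm_num
      _ ≤ _ := Nat.pow_le_pow_right (by norm_num) (Nat.one_le_iff_ne_zero.2 (by positivity))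

lemma ER_lt (k : ℕ) : H119R2.Upper.ER k + 1 ≤ twr (3 * k + 2) := by
  induction k with
  | zero => norm_num [H119R2.Upper.ER, twr]
  | succ k ih =>
    have hge := ER_ge k
    set R := H119R2.Upper.ER k with hR
    have e : H119R2.Upper.ER (k + 1) = 2 ^ ((R + 1 + 1) * 2 ^ (0 + (R + 1) + 1)) := rfl
    have h1 : R + 1 + 1 ≤ 2 ^ R := by
      have : ∀ n : ℕ, 2 ≤ n → n + 1 + 1 ≤ 2 ^ n := by
        intro n hn
        induction n, hn using Nat.le_induction with
        | base => norm_num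
        | succ n hn ih => rw [pow_succ]; omega
      exact this R hge
    have h2 : (R + 1 + 1) * 2 ^ (0 + (R + 1) + 1) ≤ 2 ^ (2 * R + 2) := by
      calc (R + 1 + 1) * 2 ^ (0 + (R + 1) + 1) ≤ 2 ^ R * 2 ^ (0 + (R + 1) + 1) :=
            Nat.mul_le_mul_right _ h1
        _ = 2 ^ (2 * R + 2) := by rw [← pow_add]; congr 1; ring
    have h3 : 2 * R + 3 ≤ 2 ^ (R + 1) := by
      have : ∀ n : ℕ, 2 ≤ n → 2 * n + 3 ≤ 2 ^ (n + 1) := by
        intro n hn
        induction n, hn using Nat.le_induction with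
        | base => norm_num
        | succ n hn ih => rw [pow_succ]; omega
      exact this R hge
    have h4 : 3 * (k + 1) + 2 = 3 * k + 2 + 1 + 1 + 1 := by ring
    rw [e, h4]
    calc 2 ^ ((R + 1 + 1) * 2 ^ (0 + (R + 1) + 1)) + 1
        ≤ 2 ^ (2 ^ (2 * R + 2)) + 1 := by
          apply Nat.add_le_add_right
          exact Nat.pow_le_pow_right (by norm_num) h2
      _ ≤ 2 ^ (2 ^ (2 * R + 2) + 1) := Nat.pow_lt_pow_right (by norm_num) (Nat.lt_succ_self _)
      _ ≤ 2 ^ (2 ^ (2 * R + 3)) := by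
          apply Nat.pow_le_pow_right (by norm_num)
          exact Nat.pow_lt_pow_right (by norm_num) (Nat.lt_succ_self _)
      _ ≤ 2 ^ (2 ^ (2 ^ (R + 1))) := by
          apply Nat.pow_le_pow_right (by norm_num)
          exact Nat.pow_le_pow_right (by norm_num) h3
      _ ≤ 2 ^ (2 ^ (2 ^ twr (3 * k + 2))) := by
          apply Nat.pow_le_pow_right (by norm_num)
          apply Nat.pow_le_pow_right (by norm_num)
          exact Nat.pow_le_pow_right (by norm_num) ih
      _ = twr (3 * k + 2 + 1 + 1 + 1) := rfl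

/-- `ER k` points suffice. -/
lemma arrows_ER (k : ℕ) (hk : 1 ≤ k) : Arrows (H119R2.Upper.ER k) k (k + 1) (k + 1) := by
  intro χ
  obtain ⟨b, Z, -, hZ, h⟩ := H119R2.Upper.ramsey_upper k χ (Finset.univ : Finset (Fin _)) hk
    (by simp)
  cases b
  · exact Or.inr ⟨Z, hZ, h⟩
  · exact Or.inl ⟨Z, hZ, h⟩

lemma not_arrows (n k j : ℕ) (hn : n ≤ H119R2.Lower.u j) (hk : 2 * (j + 19) ≤ k) :
    ¬ Arrows n k (k + 1) (k + 1) := by
  intro h
  rcases h (H119R2.Lower.colour j n k) with ⟨S, hS, h1⟩ | ⟨S, hS, h1⟩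
  · exact H119R2.Lower.no_mono j n k hn hk S hS _ h1
  · exact H119R2.Lower.no_mono j n k hn hk S hS _ h1

/-- **The hypergraph Ramsey number `r_k(k+1)` has tower-type growth.** For all `k ≥ 1`,
`twr(⌊k/2⌋ - 18) < r_k(k+1) ≤ twr(3k+2)`; in particular for every real `c < 1/2` one has
`r_k(k+1) ≥ twr(⌈ck⌉)` for all sufficiently large `k`, and for every real `C > 3` one has
`r_k(k+1) ≤ twr(⌊Ck⌋)` for all sufficiently large `k`. -/
theorem result :
    (∀ k : ℕ, 1 ≤ k → twr (k / 2 - 18) < ramsey k (k + 1) (k + 1) ∧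
      ramsey k (k + 1) (k + 1) ≤ twr (3 * k + 2)) ∧
    (∀ c : ℝ, c < 1 / 2 → ∀ᶠ k : ℕ in atTop, twr ⌈c * k⌉₊ ≤ ramsey k (k + 1) (k + 1)) ∧
    (∀ C : ℝ, 3 < C → ∀ᶠ k : ℕ in atTop, ramsey k (k + 1) (k + 1) ≤ twr ⌊C * k⌋₊) := by
  have hmain : ∀ k : ℕ, 1 ≤ k → twr (k / 2 - 18) < ramsey k (k + 1) (k + 1) ∧
      ramsey k (k + 1) (k + 1) ≤ twr (3 * k + 2) := by
    intro k hk
    have hne : {n : ℕ | Arrows n k (k + 1) (k + 1)}.Nonempty := ⟨_, arrows_ER k hk⟩
    have hmem : Arrows (ramsey k (k + 1) (k + 1)) k (k + 1) (k + 1) := Nat.sInf_mem hne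
    refine ⟨?_, ?_⟩
    · rcases Nat.lt_or_ge k 38 with h | h
      · have h0 : k / 2 - 18 = 0 := by omega
        rw [h0]
        have hcard : k + 1 ≤ ramsey k (k + 1) (k + 1) := by
          rcases hmem (fun _ => true) with ⟨S, hS, -⟩ | ⟨S, hS, -⟩
          · have := Finset.card_le_univ S
            rw [hS, Fintype.card_fin] at this
            exact this
          · have := Finset.card_le_univ S
            rw [hS, Fintype.card_fin] at this
            exact this
        have : twr 0 = 1 := rfl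
        omega
      · by_contra hcon
        push Not at hcon
        have hu := u_ge (k / 2 - 19)
        have e : k / 2 - 19 + 1 = k / 2 - 18 := by omega
        rw [e] at hu
        exact not_arrows _ k (k / 2 - 19) (by omega) (by omega) hmem
    · have h1 : ramsey k (k + 1) (k + 1) ≤ H119R2.Upper.ER k := Nat.sInf_le (arrows_ER k hk)
      have h2 := ER_lt k
      omega
  refine ⟨hmain, ?_, ?_⟩
  · intro c hc
    have hlim : ∀ᶠ k : ℕ in atTop, 20 / (1 / 2 - c) ≤ (k : ℝ) :=
      tendsto_natCast_atTop_atTop.eventually_ge_atTop _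
    filter_upwards [hlim, eventually_ge_atTop 1] with k hk hk1
    refine le_trans ?_ (hmain k hk1).1.le
    apply twr_strictMono.monotone
    apply Nat.ceil_le.2
    have h1 : 20 ≤ (k : ℝ) * (1 / 2 - c) := by
      rwa [div_le_iff₀ (by linarith)] at hk
    have h2 : (k : ℝ) / 2 ≤ ((k / 2 : ℕ) : ℝ) + 1 := by
      have : k ≤ 2 * (k / 2) + 1 := by omega
      have h3 : (k : ℝ) ≤ 2 * ((k / 2 : ℕ) : ℝ) + 1 := by exact_mod_cast this
      linarith
    have h4 : ((k / 2 : ℕ) : ℝ) ≤ ((k / 2 - 18 : ℕ) : ℝ) + 18 := by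
      have : k / 2 ≤ (k / 2 - 18) + 18 := by omega
      exact_mod_cast this
    nlinarith
  · intro C hC
    have hlim : ∀ᶠ k : ℕ in atTop, 2 / (C - 3) ≤ (k : ℝ) :=
      tendsto_natCast_atTop_atTop.eventually_ge_atTop _
    filter_upwards [hlim, eventually_ge_atTop 1] with k hk hk1
    refine le_trans (hmain k hk1).2 ?_
    apply twr_strictMono.monotone
    apply Nat.le_floor
    have h1 : 2 ≤ (k : ℝ) * (C - 3) := by
      rwa [div_le_iff₀ (by linarith)] at hk
    push_cast
    nlinarith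

end Pool.Agent.Results.MP_3aefc9_co.TowerGrowth
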